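import Mathlib

set_option autoImplicit false

/-!
# No smoothing-step threshold for uniform V-cycle contraction

For `α = 1/2`, `C_R = 1`, `C_A2 = 4` and every number `m ≥ 1` of smoothing steps there are
admissible hierarchies whose V-cycle error operators have arbitrarily large energy norm.
-/

open Matrix

namespace Pool.Agent.Results.MP_89e789_an.NoThreshold

/-- The spectral radius of a real symmetric matrix: the supremum of the absolute values of its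
eigenvalues. -/
noncomputable def rho {n : ℕ} (A : Matrix (Fin n) (Fin n) ℝ) : ℝ :=
  sSup {t : ℝ | ∃ μ ∈ spectrum ℝ A, t = |μ|}

/-- The Euclidean norm. -/
noncomputable def eNorm {n : ℕ} (v : Fin n → ℝ) : ℝ := Real.sqrt (v ⬝ᵥ v)

/-- The inner product `⟨u, v⟩_A = uᵀ A v`. -/
noncomputable def aInner {n : ℕ} (A : Matrix (Fin n) (Fin n) ℝ) (u v : Fin n → ℝ) : ℝ :=
  u ⬝ᵥ (A *ᵥ v)

/-- The energy norm `‖v‖_A = (vᵀ A v)^{1/2}`. -/
noncomputable def aNorm {n : ℕ} (A : Matrix (Fin n) (Fin n) ℝ) (v : Fin n → ℝ) : ℝ :=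
  Real.sqrt (aInner A v v)

/-- The data of a hierarchy: sizes, system matrices, prolongations, restrictions and the
parameters `Λ` of the Richardson smoothers, on the levels `0, 1, 2, …`; a hierarchy of depth `L`
uses the levels `0, …, L` only. -/
structure Hier where
  /-- the size of level `ℓ` -/
  n : ℕ → ℕ
  /-- the matrix of level `ℓ` -/
  A : ∀ l, Matrix (Fin (n l)) (Fin (n l)) ℝ
  /-- the prolongation from level `ℓ` to level `ℓ + 1` -/
  P : ∀ l, Matrix (Fin (n (l + 1))) (Fin (n l)) ℝ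
  /-- the restriction from level `ℓ + 1` to level `ℓ` -/
  R : ∀ l, Matrix (Fin (n l)) (Fin (n (l + 1))) ℝ
  /-- the Richardson parameter of level `ℓ` -/
  Lam : ℕ → ℝ

namespace Hier

variable (H : Hier)

/-- `Π_ℓ = A_ℓ⁻¹ R_ℓ A_{ℓ+1}`. -/
noncomputable def Pi (l : ℕ) : Matrix (Fin (H.n l)) (Fin (H.n (l + 1))) ℝ :=
  (H.A l)⁻¹ * H.R l * H.A (l + 1)

/-- The Richardson smoother `K_ℓ = I - Λ_ℓ⁻¹ A_ℓ`. -/
noncomputable def K (l : ℕ) : Matrix (Fin (H.n l)) (Fin (H.n l)) ℝ :=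
  1 - (H.Lam l)⁻¹ • H.A l

/-- The error operators of the cycle with `m` pre- and post-smoothing steps and `p` recursive
calls: `E_0 = 0` and `E_ℓ = K_ℓ^m (I - P_{ℓ-1} (I - E_{ℓ-1}^p) Π_{ℓ-1}) K_ℓ^m`. -/
noncomputable def E (p m : ℕ) : ∀ l, Matrix (Fin (H.n l)) (Fin (H.n l)) ℝ
  | 0 => 0
  | l + 1 => H.K (l + 1) ^ m * (1 - H.P l * (1 - E p m l ^ p) * H.Pi l) * H.K (l + 1) ^ m

/-- `H` is a hierarchy of depth `L`: the matrices are symmetric positive definite and the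
prolongations have full column rank. -/
def IsHierarchy (L : ℕ) : Prop :=
  (∀ l ≤ L, (H.A l).PosDef) ∧ ∀ l < L, Function.Injective (H.P l).mulVec

/-- Condition (G3): for some fixed `r ∈ (0,1)`, `R_{ℓ-1} = r P_{ℓ-1}ᵀ` and
`R_{ℓ-1} A_ℓ P_{ℓ-1} = 2 A_{ℓ-1}` for `1 ≤ ℓ ≤ L`. -/
def G3 (L : ℕ) : Prop :=
  ∃ r : ℝ, 0 < r ∧ r < 1 ∧ ∀ l < L, H.R l = r • (H.P l)ᵀ ∧
    H.R l * H.A (l + 1) * H.P l = (2 : ℝ) • H.A l

/-- Condition (R) with constant `CR`: `ρ(A_ℓ) ≤ Λ_ℓ ≤ CR ρ(A_ℓ)` for `1 ≤ ℓ ≤ L`. -/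
def RCond (L : ℕ) (CR : ℝ) : Prop :=
  ∀ l < L, rho (H.A (l + 1)) ≤ H.Lam (l + 1) ∧ H.Lam (l + 1) ≤ CR * rho (H.A (l + 1))

/-- Condition (A2)_α with constant `C`, for `1 ≤ ℓ ≤ L`. -/
def A2 (L : ℕ) (C α : ℝ) : Prop :=
  ∀ l < L, ∀ v : Fin (H.n (l + 1)) → ℝ,
    |aInner (H.A (l + 1)) ((1 - H.P l * H.Pi l) *ᵥ v) v| ≤
      C ^ (2 * α) / rho (H.A (l + 1)) ^ α * eNorm (H.A (l + 1) *ᵥ v) ^ (2 * α) *
        aNorm (H.A (l + 1)) v ^ (2 * (1 - α))

/-- `H` is an admissible hierarchy of depth `L` with constants `CR`, `C`, `α`. -/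
def Admissible (L : ℕ) (CR C α : ℝ) : Prop :=
  H.IsHierarchy L ∧ H.G3 L ∧ H.RCond L CR ∧ H.A2 L C α

end Hier

/-- Uniform V-cycle contraction for `(CR, C, α, m)`: some `δ < 1` satisfies
`‖E_L‖_{A_L} ≤ δ` (V-cycle, `p = 1`) for every admissible hierarchy of every depth `L ≥ 1`. -/
def UniformVContraction (CR C α : ℝ) (m : ℕ) : Prop :=
  ∃ δ : ℝ, δ < 1 ∧ ∀ L : ℕ, 1 ≤ L → ∀ H : Hier, H.Admissible L CR C α →
    ∀ v : Fin (H.n L) → ℝ, aNorm (H.A L) (H.E 1 m L *ᵥ v) ≤ δ * aNorm (H.A L) v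

/-! ### The hierarchies -/

section Construction

/-- diagonal entries of the system matrices -/
def dg (s : ℝ) (l : ℕ) : Fin (l + 1) → ℝ := Fin.cons (s ^ 2) (fun _ => 1)

/-- system matrices -/
noncomputable def AA (s : ℝ) (l : ℕ) : Matrix (Fin (l + 1)) (Fin (l + 1)) ℝ :=
  Matrix.diagonal (dg s l)

/-- prolongations -/
noncomputable def PP (a b : ℝ) (l : ℕ) : Matrix (Fin (l + 2)) (Fin (l + 1)) ℝ :=
  Matrix.of (Fin.cons (Fin.cons a (fun _ => 0))
    (Fin.cons (Fin.cons b (fun _ => 0))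
      (fun i => fun j => if j = i.succ then (2 : ℝ) else 0)))

/-- the hierarchy -/
noncomputable def HH (s a b : ℝ) : Hier where
  n := fun l => l + 1
  A := AA s
  P := PP a b
  R := fun l => (1 / 2 : ℝ) • (PP a b l)ᵀ
  Lam := fun _ => 1

variable {s a b : ℝ}

lemma PP_mulVec_zero (l : ℕ) (v : Fin (l + 1) → ℝ) : (PP a b l *ᵥ v) 0 = a * v 0 := by
  simp [Matrix.mulVec, dotProduct, PP, Fin.sum_univ_succ]

lemma PP_mulVec_one (l : ℕ) (v : Fin (l + 1) → ℝ) :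
    (PP a b l *ᵥ v) (Fin.succ 0) = b * v 0 := by
  simp [Matrix.mulVec, dotProduct, PP, Fin.sum_univ_succ]

lemma PP_mulVec_succ (l : ℕ) (v : Fin (l + 1) → ℝ) (i : Fin l) :
    (PP a b l *ᵥ v) i.succ.succ = 2 * v i.succ := by
  simp [Matrix.mulVec, dotProduct, PP]

lemma PPt_mulVec_zero (l : ℕ) (w : Fin (l + 2) → ℝ) :
    ((PP a b l)ᵀ *ᵥ w) 0 = a * w 0 + b * w (Fin.succ 0) := by
  simp only [Matrix.mulVec, dotProduct, PP, Matrix.transpose_apply, Matrix.of_apply]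
  rw [Fin.sum_univ_succ, Fin.sum_univ_succ]
  simp only [Fin.cons_zero, Fin.cons_succ]
  rw [Finset.sum_eq_zero]
  · ring
  · intro i _
    rw [if_neg (Fin.succ_ne_zero i).symm]; ring

lemma PPt_mulVec_succ (l : ℕ) (w : Fin (l + 2) → ℝ) (i : Fin l) :
    ((PP a b l)ᵀ *ᵥ w) i.succ = 2 * w i.succ.succ := by
  simp only [Matrix.mulVec, dotProduct, PP, Matrix.transpose_apply, Matrix.of_apply]
  rw [Fin.sum_univ_succ, Fin.sum_univ_succ]
  simp only [Fin.cons_zero, Fin.cons_succ]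
  simp [Fin.succ_inj]

lemma AA_mulVec (l : ℕ) (v : Fin (l + 1) → ℝ) (i : Fin (l + 1)) :
    (AA s l *ᵥ v) i = dg s l i * v i := by
  simp [AA, Matrix.mulVec_diagonal]

lemma dg_zero (l : ℕ) : dg s l 0 = s ^ 2 := rfl

lemma dg_succ (l : ℕ) (i : Fin l) : dg s l i.succ = 1 := rfl

lemma AA_inv (hs : s ≠ 0) (l : ℕ) :
    (AA s l)⁻¹ = Matrix.diagonal (Fin.cons (s ^ 2)⁻¹ (fun _ => 1)) := by
  apply Matrix.inv_eq_right_inv
  rw [AA, Matrix.diagonal_mul_diagonal, ← Matrix.diagonal_one]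
  congr 1
  funext i
  refine Fin.cases ?_ (fun j => ?_) i
  · simp [dg, hs]
  · simp [dg]

lemma AAinv_mulVec_zero (hs : s ≠ 0) (l : ℕ) (v : Fin (l + 1) → ℝ) :
    ((AA s l)⁻¹ *ᵥ v) 0 = (s ^ 2)⁻¹ * v 0 := by
  rw [AA_inv hs, Matrix.mulVec_diagonal]; rfl

lemma AAinv_mulVec_succ (hs : s ≠ 0) (l : ℕ) (v : Fin (l + 1) → ℝ) (i : Fin l) :
    ((AA s l)⁻¹ *ᵥ v) i.succ = v i.succ := by
  rw [AA_inv hs, Matrix.mulVec_diagonal]; simp

/-- the matrix `Π` of the construction -/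
noncomputable def PiM (s a b : ℝ) (l : ℕ) : Matrix (Fin (l + 1)) (Fin (l + 2)) ℝ :=
  (AA s l)⁻¹ * ((1 / 2 : ℝ) • (PP a b l)ᵀ) * AA s (l + 1)

lemma PiM_mulVec_zero (hs : s ≠ 0) (l : ℕ) (v : Fin (l + 2) → ℝ) :
    (PiM s a b l *ᵥ v) 0 =
      (s ^ 2)⁻¹ * ((1 / 2) * (a * (s ^ 2 * v 0) + b * v (Fin.succ 0))) := by
  rw [PiM, ← Matrix.mulVec_mulVec, ← Matrix.mulVec_mulVec, AAinv_mulVec_zero hs,
    Matrix.smul_mulVec, Pi.smul_apply, PPt_mulVec_zero, AA_mulVec, AA_mulVec, dg_zero, dg_succ]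
  simp [smul_eq_mul]

lemma PiM_mulVec_succ (hs : s ≠ 0) (l : ℕ) (v : Fin (l + 2) → ℝ) (i : Fin l) :
    (PiM s a b l *ᵥ v) i.succ = v i.succ.succ := by
  rw [PiM, ← Matrix.mulVec_mulVec, ← Matrix.mulVec_mulVec, AAinv_mulVec_succ hs,
    Matrix.smul_mulVec, Pi.smul_apply, PPt_mulVec_succ, AA_mulVec, dg_succ]
  simp [smul_eq_mul]

lemma aInner_AA (l : ℕ) (u v : Fin (l + 1) → ℝ) :
    aInner (AA s l) u v = s ^ 2 * (u 0 * v 0) + ∑ i : Fin l, u i.succ * v i.succ := by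
  unfold aInner dotProduct
  rw [Fin.sum_univ_succ, AA_mulVec, dg_zero]
  congr 1
  · ring
  · refine Finset.sum_congr rfl fun i _ => ?_
    rw [AA_mulVec, dg_succ]; ring

lemma rho_AA (hs1 : s ^ 2 ≤ 1) (l : ℕ) : rho (AA s (l + 1)) = 1 := by
  have hset : {t : ℝ | ∃ μ ∈ spectrum ℝ (AA s (l + 1)), t = |μ|} = {s ^ 2, 1} := by
    ext t
    simp only [Set.mem_ofPred_eq, AA, spectrum_diagonal, Set.mem_range,
      Set.mem_insert_iff, Set.mem_singleton_iff]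
    constructor
    · rintro ⟨μ, ⟨i, rfl⟩, rfl⟩
      refine Fin.cases ?_ (fun j => ?_) i
      · left; rw [dg_zero, abs_of_nonneg (sq_nonneg s)]
      · right; rw [dg_succ, abs_one]
    · rintro (rfl | rfl)
      · exact ⟨s ^ 2, ⟨0, rfl⟩, (abs_of_nonneg (sq_nonneg s)).symm⟩
      · exact ⟨1, ⟨Fin.succ 0, rfl⟩, abs_one.symm⟩
  unfold rho
  rw [hset]
  apply IsGreatest.csSup_eq
  constructor
  · simp
  · rintro t (rfl | rfl)
    · exact hs1
    · exact le_refl _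

/-- the smoother -/
noncomputable def KM (s : ℝ) (l : ℕ) : Matrix (Fin (l + 1)) (Fin (l + 1)) ℝ := 1 - AA s l

/-- the error operators -/
noncomputable def EM (s a b : ℝ) (m : ℕ) : ∀ l, Matrix (Fin (l + 1)) (Fin (l + 1)) ℝ
  | 0 => 0
  | l + 1 => KM s (l + 1) ^ m * (1 - PP a b l * (1 - EM s a b m l) * PiM s a b l) *
      KM s (l + 1) ^ m

lemma HH_K (l : ℕ) : (HH s a b).K l = KM s l := by
  unfold Hier.K KM HH
  simp

lemma HH_E (m : ℕ) : ∀ l, (HH s a b).E 1 m l = EM s a b m l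
  | 0 => rfl
  | l + 1 => by
    have ih : (HH s a b).E 1 m l = EM s a b m l := HH_E m l
    have hK : (HH s a b).K (l + 1) = KM s (l + 1) := HH_K (l + 1)
    have h1 : (HH s a b).E 1 m (l + 1) = (HH s a b).K (l + 1) ^ m *
      (1 - (HH s a b).P l * (1 - (HH s a b).E 1 m l ^ 1) * (HH s a b).Pi l) *
        (HH s a b).K (l + 1) ^ m := rfl
    rw [h1, hK, ih]
    have h2 : EM s a b m l ^ 1 = EM s a b m l := pow_one _
    have h3 := congrArg (fun Z : Matrix (Fin (l + 1)) (Fin (l + 1)) ℝ =>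
      KM s (l + 1) ^ m * (1 - PP a b l * (1 - Z) * PiM s a b l) * KM s (l + 1) ^ m) h2
    exact h3

lemma KM_eq (l : ℕ) : KM s l = Matrix.diagonal (Fin.cons (1 - s ^ 2) (fun _ => 0)) := by
  rw [KM, AA, ← Matrix.diagonal_one, Matrix.diagonal_sub]
  congr 1
  funext i
  refine Fin.cases ?_ (fun j => ?_) i
  · simp [dg]
  · simp [dg]

lemma KM_pow {m : ℕ} (hm : m ≠ 0) (l : ℕ) :
    KM s l ^ m = Matrix.diagonal (Fin.cons ((1 - s ^ 2) ^ m) (fun _ => 0)) := by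
  rw [KM_eq, Matrix.diagonal_pow]
  congr 1
  funext i
  refine Fin.cases ?_ (fun j => ?_) i
  · simp
  · simp [hm]

/-- the scalars `e_ℓ` -/
noncomputable def ee (s a : ℝ) (m : ℕ) : ℕ → ℝ
  | 0 => 0
  | l + 1 => ((1 - s ^ 2) ^ m) ^ 2 * (1 - a ^ 2 / 2 * (1 - ee s a m l))

/-- the first basis vector -/
def e0 (l : ℕ) : Fin (l + 1) → ℝ := Fin.cons 1 (fun _ => 0)

lemma EM_mulVec (hs : s ≠ 0) {m : ℕ} (hm : m ≠ 0) :
    ∀ l, EM s a b m l *ᵥ e0 l = ee s a m l • e0 l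
  | 0 => by simp [EM, ee]
  | l + 1 => by
    have ih := EM_mulVec hs hm l
    have hK : KM s (l + 1) ^ m *ᵥ e0 (l + 1) = (1 - s ^ 2) ^ m • e0 (l + 1) := by
      rw [KM_pow hm]
      funext i
      rw [Matrix.mulVec_diagonal]
      refine Fin.cases ?_ (fun j => ?_) i
      · simp [e0]
      · simp [e0]
    have hPi : PiM s a b l *ᵥ e0 (l + 1) = (a / 2) • e0 l := by
      funext i
      refine Fin.cases ?_ (fun j => ?_) i
      · rw [PiM_mulVec_zero hs]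
        simp [e0]
        field_simp
      · rw [PiM_mulVec_succ hs]
        simp [e0]
    have h1 : (1 - EM s a b m l) *ᵥ e0 l = (1 - ee s a m l) • e0 l := by
      rw [Matrix.sub_mulVec, Matrix.one_mulVec, ih, sub_smul, one_smul]
    show (KM s (l + 1) ^ m * (1 - PP a b l * (1 - EM s a b m l) * PiM s a b l) *
      KM s (l + 1) ^ m) *ᵥ e0 (l + 1) = _
    rw [← Matrix.mulVec_mulVec, hK, Matrix.mulVec_smul, ← Matrix.mulVec_mulVec,
      Matrix.sub_mulVec, Matrix.one_mulVec, ← Matrix.mulVec_mulVec, hPi, Matrix.mulVec_smul,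
      ← Matrix.mulVec_mulVec, h1, Matrix.mulVec_smul, KM_pow hm]
    funext i
    rw [Pi.smul_apply, Matrix.mulVec_diagonal]
    refine Fin.cases ?_ (fun j => ?_) i
    · rw [Fin.cons_zero, Pi.sub_apply, Pi.smul_apply, Pi.smul_apply, PP_mulVec_zero]
      simp only [e0, Fin.cons_zero, smul_eq_mul, Pi.smul_apply, ee]
      ring
    · rw [Fin.cons_succ, Pi.smul_apply]
      simp [e0]

lemma AA_posDef (hs : s ≠ 0) (l : ℕ) : (AA s l).PosDef := by
  rw [AA, Matrix.posDef_diagonal_iff]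
  intro i
  refine Fin.cases ?_ (fun j => ?_) i
  · rw [dg_zero]; positivity
  · rw [dg_succ]; norm_num

lemma PP_injective (ha : a ≠ 0) (l : ℕ) : Function.Injective (PP a b l).mulVec := by
  intro u v huv
  have h (i : Fin (l + 2)) : (PP a b l *ᵥ u) i = (PP a b l *ᵥ v) i := congrFun huv i
  funext i
  refine Fin.cases ?_ (fun j => ?_) i
  · have := h 0
    rw [PP_mulVec_zero, PP_mulVec_zero] at this
    exact mul_left_cancel₀ ha this
  · have := h j.succ.succ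
    rw [PP_mulVec_succ, PP_mulVec_succ] at this
    linarith

lemma PAP (hab : a ^ 2 * s ^ 2 + b ^ 2 = 4 * s ^ 2) (l : ℕ) :
    ((1 / 2 : ℝ) • (PP a b l)ᵀ) * AA s (l + 1) * PP a b l = (2 : ℝ) • AA s l := by
  apply Matrix.ext_of_mulVec_single
  intro j
  generalize (Pi.single j (1 : ℝ) : Fin (l + 1) → ℝ) = v
  funext i
  rw [← Matrix.mulVec_mulVec, ← Matrix.mulVec_mulVec, Matrix.smul_mulVec, Pi.smul_apply,
    Matrix.smul_mulVec, Pi.smul_apply, AA_mulVec]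
  refine Fin.cases ?_ (fun j => ?_) i
  · rw [PPt_mulVec_zero, AA_mulVec, AA_mulVec, dg_zero, dg_succ, PP_mulVec_zero,
      PP_mulVec_one, dg_zero, smul_eq_mul, smul_eq_mul]
    linear_combination (v 0 / 2) * hab
  · rw [PPt_mulVec_succ, AA_mulVec, dg_succ, PP_mulVec_succ, dg_succ, smul_eq_mul,
      smul_eq_mul]
    ring

lemma A2_key (hs : 0 < s) (hs1 : s ≤ 1)
    (ha : a ^ 2 = 2 * (1 + s)) (hb : b ^ 2 = 2 * (1 - s) * s ^ 2) (l : ℕ)
    (v : Fin (l + 2) → ℝ) :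
    |aInner (AA s (l + 1)) ((1 - PP a b l * PiM s a b l) *ᵥ v) v| ≤
      4 * (eNorm (AA s (l + 1) *ᵥ v) * aNorm (AA s (l + 1)) v) := by
  have hs0 : s ≠ 0 := hs.ne'
  set c : ℝ := s * v 0 with hc
  set y : ℝ := v (Fin.succ 0) with hy
  set T : ℝ := ∑ i : Fin l, v i.succ.succ * v i.succ.succ with hT
  have hT0 : 0 ≤ T := Finset.sum_nonneg fun i _ => mul_self_nonneg _
  -- the left-hand side
  have hl : aInner (AA s (l + 1)) ((1 - PP a b l * PiM s a b l) *ᵥ v) v =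
      -s * c ^ 2 + s * y ^ 2 - (a * b / s) * (c * y) - T := by
    rw [aInner_AA, Fin.sum_univ_succ, Matrix.sub_mulVec, Matrix.one_mulVec,
      ← Matrix.mulVec_mulVec]
    simp only [Pi.sub_apply, PP_mulVec_zero, PP_mulVec_one, PP_mulVec_succ,
      PiM_mulVec_zero hs0, PiM_mulVec_succ hs0]
    have h2 : ∑ i : Fin l, (v i.succ.succ - 2 * v i.succ.succ) * v i.succ.succ = -T := by
      rw [hT, ← Finset.sum_neg_distrib]
      exact Finset.sum_congr rfl fun i _ => by ring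
    rw [h2, ← hy, hc]
    have e1 : s ^ 2 * ((v 0 - a * ((s ^ 2)⁻¹ * (1 / 2 * (a * (s ^ 2 * v 0) + b * y)))) * v 0) =
        (1 - a ^ 2 / 2) * (s * v 0) ^ 2 - a * b / 2 * (v 0 * y) := by
      field_simp
      ring
    have e2 : (y - b * ((s ^ 2)⁻¹ * (1 / 2 * (a * (s ^ 2 * v 0) + b * y)))) * y =
        (1 - b ^ 2 / (2 * s ^ 2)) * y ^ 2 - a * b / 2 * (v 0 * y) := by
      field_simp
      ring
    have e3 : b ^ 2 / (2 * s ^ 2) = 1 - s := by
      rw [hb]; field_simp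
    have e4 : a * b / s * (s * v 0 * y) = a * b * (v 0 * y) := by
      field_simp
    rw [e1, e2, e3, e4, ha]
    ring
  have hN1 : eNorm (AA s (l + 1) *ᵥ v) = Real.sqrt (s ^ 2 * c ^ 2 + (y ^ 2 + T)) := by
    unfold eNorm dotProduct
    congr 1
    rw [Fin.sum_univ_succ, Fin.sum_univ_succ]
    simp only [AA_mulVec, dg_zero, dg_succ, one_mul]
    rw [← hy, ← hT, hc]
    ring
  have hN2 : aNorm (AA s (l + 1)) v = Real.sqrt (c ^ 2 + (y ^ 2 + T)) := by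
    unfold aNorm
    rw [aInner_AA, Fin.sum_univ_succ, ← hy, ← hT, hc]
    congr 1
    ring
  rw [hl, hN1, hN2]
  set N1 := Real.sqrt (s ^ 2 * c ^ 2 + (y ^ 2 + T)) with hN1'
  set N2 := Real.sqrt (c ^ 2 + (y ^ 2 + T)) with hN2'
  have hs2 : 0 ≤ s ^ 2 * c ^ 2 := by positivity
  have q1 : s * |c| ≤ N1 := by
    apply Real.le_sqrt_of_sq_le
    rw [mul_pow, sq_abs]; nlinarith [sq_nonneg y]
  have q2 : |y| ≤ N1 := by
    apply Real.le_sqrt_of_sq_le
    rw [sq_abs]; linarith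
  have q3 : |c| ≤ N2 := by
    apply Real.le_sqrt_of_sq_le
    rw [sq_abs]; nlinarith [sq_nonneg y]
  have q4 : Real.sqrt (y ^ 2 + T) ≤ N1 := Real.sqrt_le_sqrt (by linarith)
  have q5 : Real.sqrt (y ^ 2 + T) ≤ N2 := Real.sqrt_le_sqrt (by nlinarith [sq_nonneg c])
  have q6 : Real.sqrt (y ^ 2 + T) * Real.sqrt (y ^ 2 + T) = y ^ 2 + T :=
    Real.mul_self_sqrt (by positivity)
  have q7 : y ^ 2 + T ≤ N1 * N2 := by
    rw [← q6]
    exact mul_le_mul q4 q5 (Real.sqrt_nonneg _) ((Real.sqrt_nonneg _).trans q4)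
  have q8 : s * c ^ 2 ≤ N1 * N2 := by
    have : s * c ^ 2 = (s * |c|) * |c| := by rw [mul_assoc, abs_mul_abs_self]; ring
    rw [this]
    exact mul_le_mul q1 q3 (abs_nonneg _) ((by positivity : 0 ≤ s * |c|).trans q1)
  have q9 : |c| * |y| ≤ N1 * N2 := by
    rw [mul_comm N1 N2]
    exact mul_le_mul q3 q2 (abs_nonneg _) ((abs_nonneg _).trans q3)
  have q10 : |a * b / s| ≤ 2 := by
    apply abs_le_of_sq_le_sq _ (by norm_num)
    have : (a * b / s) ^ 2 = 4 * (1 - s ^ 2) := by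
      rw [div_pow, mul_pow, ha, hb]; field_simp; ring
    rw [this]; nlinarith
  have q11 : |a * b / s * (c * y)| ≤ 2 * (|c| * |y|) := by
    rw [abs_mul, abs_mul c y]
    exact mul_le_mul_of_nonneg_right q10 (by positivity)
  have q12 := abs_le.mp q11
  have q13 : 0 ≤ s * c ^ 2 := by positivity
  have q14 : 0 ≤ s * y ^ 2 := by positivity
  have q15 : s * y ^ 2 ≤ y ^ 2 := by nlinarith [sq_nonneg y]
  rw [abs_le]
  constructor
  · linarith [q12.2, sq_nonneg y]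
  · linarith [q12.1]

lemma ee_growth (hs : 0 ≤ s) (ha : a ^ 2 = 2 * (1 + s)) (m : ℕ)
    (hk : 1 ≤ ((1 - s ^ 2) ^ m) ^ 2 * (1 + s)) (l : ℕ) :
    ((1 - s ^ 2) ^ m) ^ 2 * s * l ≤ - ee s a m l := by
  induction l with
  | zero => simp [ee]
  | succ l ih =>
    rw [ee, ha]
    push_cast
    have h0 : 0 ≤ ((1 - s ^ 2) ^ m) ^ 2 * s * l := by positivity
    have h1 : 0 ≤ - ee s a m l := h0.trans ih
    nlinarith [mul_nonneg (sub_nonneg.mpr hk) h1]

lemma kappa {m : ℕ} (hm : 1 ≤ m) (hsm : s = 1 / (4 * m)) :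
    1 ≤ ((1 - s ^ 2) ^ m) ^ 2 * (1 + s) := by
  have hm' : (1 : ℝ) ≤ m := by exact_mod_cast hm
  have hs0 : 0 < s := by rw [hsm]; positivity
  have hs1 : s ≤ 1 / 4 := by
    rw [hsm]
    apply div_le_div_of_nonneg_left <;> linarith
  have hms : (m : ℝ) * s = 1 / 4 := by rw [hsm]; field_simp
  have hb : 1 - 2 * m * s ^ 2 ≤ ((1 - s ^ 2) ^ m) ^ 2 := by
    rw [← pow_mul]
    have h := one_add_mul_le_pow (a := -s ^ 2) (by nlinarith) (m * 2)
    have h' : 1 + ((m * 2 : ℕ) : ℝ) * -s ^ 2 = 1 - 2 * m * s ^ 2 := by push_cast; ring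
    rw [h'] at h
    have h'' : 1 - s ^ 2 = 1 + -s ^ 2 := by ring
    rw [h'', mul_comm m 2, mul_comm 2 m]
    exact h
  have h2 : 2 * m * s ^ 2 = s / 2 := by
    have : 2 * m * s ^ 2 = 2 * (m * s) * s := by ring
    rw [this, hms]; ring
  rw [h2] at hb
  nlinarith

end Construction

/-- For every `m ≥ 1` and every `B` there are `L ≥ 1` and a hierarchy of depth `L` which is
admissible for `C_R = 1`, `C_A2 = 4`, `α = 1/2` and whose V-cycle error operator with `m`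
smoothing steps stretches the energy norm of some vector by more than the factor `B`; hence no
smoothing-step threshold for uniform V-cycle contraction exists. -/
theorem result :
    (∀ m : ℕ, 1 ≤ m → ∀ B : ℝ, ∃ L : ℕ, 1 ≤ L ∧ ∃ H : Hier, H.Admissible L 1 4 (1 / 2) ∧
      ∃ v : Fin (H.n L) → ℝ, B * aNorm (H.A L) v < aNorm (H.A L) (H.E 1 m L *ᵥ v)) ∧
    ¬ ∃ m₀ : ℝ → ℝ → ℝ → ℕ, ∀ CR C α : ℝ, 1 ≤ CR → 0 < C → 0 < α → α ≤ 1 →
      ∀ m : ℕ, m₀ CR C α ≤ m → UniformVContraction CR C α m := by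
  have main : ∀ m : ℕ, 1 ≤ m → ∀ B : ℝ, ∃ L : ℕ, 1 ≤ L ∧ ∃ H : Hier,
      H.Admissible L 1 4 (1 / 2) ∧
      ∃ v : Fin (H.n L) → ℝ, B * aNorm (H.A L) v < aNorm (H.A L) (H.E 1 m L *ᵥ v) := by
    intro m hm B
    obtain ⟨s, hsm⟩ : ∃ s : ℝ, s = 1 / (4 * m) := ⟨_, rfl⟩
    have hm' : (1 : ℝ) ≤ m := by exact_mod_cast hm
    have hs0 : 0 < s := by rw [hsm]; positivity
    have hs1 : s ≤ 1 / 4 := by
      rw [hsm]
      apply div_le_div_of_nonneg_left <;> linarith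
    have hk := kappa hm hsm
    obtain ⟨a, ha⟩ : ∃ a : ℝ, a ^ 2 = 2 * (1 + s) :=
      ⟨Real.sqrt (2 * (1 + s)), Real.sq_sqrt (by linarith)⟩
    obtain ⟨b, hb⟩ : ∃ b : ℝ, b ^ 2 = 2 * (1 - s) * s ^ 2 :=
      ⟨Real.sqrt (2 * (1 - s) * s ^ 2), Real.sq_sqrt (by
        have : 0 ≤ 1 - s := by linarith
        positivity)⟩
    have hane : a ≠ 0 := by
      rintro rfl
      norm_num at ha
      linarith
    have hg0 : 0 < ((1 - s ^ 2) ^ m) ^ 2 * s := by
      have : 0 < 1 - s ^ 2 := by nlinarith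
      positivity
    obtain ⟨N, hN⟩ := exists_nat_gt (|B| / (((1 - s ^ 2) ^ m) ^ 2 * s))
    refine ⟨N + 1, by omega, HH s a b, ⟨⟨?_, ?_⟩, ?_, ?_, ?_⟩, e0 (N + 1), ?_⟩
    · intro l _
      exact AA_posDef hs0.ne' l
    · intro l _
      exact PP_injective hane l
    · refine ⟨1 / 2, by norm_num, by norm_num, fun l _ => ⟨rfl, ?_⟩⟩
      exact PAP (by rw [ha, hb]; ring) l
    · intro l _
      have h1 : rho ((HH s a b).A (l + 1)) = 1 := rho_AA (by nlinarith) l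
      rw [h1]
      exact ⟨le_refl _, by norm_num [HH]⟩
    · intro l _ v
      have h1 : rho ((HH s a b).A (l + 1)) = 1 := rho_AA (by nlinarith) l
      have h2 : (2 : ℝ) * (1 / 2) = 1 := by norm_num
      have h3 : (2 : ℝ) * (1 - 1 / 2) = 1 := by norm_num
      rw [h1, h2, h3, Real.one_rpow, Real.rpow_one, Real.rpow_one, Real.rpow_one, div_one,
        mul_assoc]
      exact A2_key hs0 (by linarith) ha hb l v
    · have hpos : 0 < aNorm (AA s (N + 1)) (e0 (N + 1)) := by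
        unfold aNorm
        apply Real.sqrt_pos.mpr
        rw [aInner_AA]
        have : ∑ i : Fin (N + 1), e0 (N + 1) i.succ * e0 (N + 1) i.succ = 0 := by
          apply Finset.sum_eq_zero
          intro i _
          simp [e0]
        rw [this]
        have h00 : e0 (N + 1) 0 = 1 := rfl
        rw [h00]; positivity
      have hsc : ∀ t : ℝ, aNorm (AA s (N + 1)) (t • e0 (N + 1)) =
          |t| * aNorm (AA s (N + 1)) (e0 (N + 1)) := by
        intro t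
        unfold aNorm aInner
        rw [Matrix.mulVec_smul, dotProduct_smul, smul_dotProduct, smul_eq_mul, smul_eq_mul,
          ← mul_assoc, ← sq, Real.sqrt_mul (sq_nonneg t), Real.sqrt_sq_eq_abs]
      have hgr := ee_growth hs0.le ha m hk (N + 1)
      have hB : B < |ee s a m (N + 1)| := by
        rw [div_lt_iff₀ hg0] at hN
        have h4 : |B| < ((1 - s ^ 2) ^ m) ^ 2 * s * ((N + 1 : ℕ) : ℝ) := by
          push_cast
          nlinarith
        calc B ≤ |B| := le_abs_self B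
          _ < _ := h4
          _ ≤ - ee s a m (N + 1) := hgr
          _ ≤ _ := neg_le_abs _
      have hfin : B * aNorm (AA s (N + 1)) (e0 (N + 1)) <
          aNorm (AA s (N + 1)) (EM s a b m (N + 1) *ᵥ e0 (N + 1)) := by
        rw [EM_mulVec hs0.ne' (by omega) (N + 1), hsc]
        exact mul_lt_mul_of_pos_right hB hpos
      have hEM : (HH s a b).E 1 m (N + 1) = EM s a b m (N + 1) := HH_E m (N + 1)
      have hcg := congrArg (fun Z : Matrix (Fin (N + 1 + 1)) (Fin (N + 1 + 1)) ℝ =>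
        B * aNorm (AA s (N + 1)) (e0 (N + 1)) < aNorm (AA s (N + 1)) (Z *ᵥ e0 (N + 1))) hEM
      exact Eq.mpr hcg hfin
  refine ⟨main, ?_⟩
  rintro ⟨m₀, h⟩
  obtain ⟨δ, hδ, hc⟩ := h 1 4 (1 / 2) le_rfl (by norm_num) (by norm_num) (by norm_num)
    (max (m₀ 1 4 (1 / 2)) 1) (le_max_left _ _)
  obtain ⟨L, hL, H, hH, v, hv⟩ := main (max (m₀ 1 4 (1 / 2)) 1) (le_max_right _ _) δ
  exact absurd (hc L hL H hH v) (not_le.mpr hv)

end Pool.Agent.Results.MP_89e789_an.NoThreshold
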